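import Mathlib

/-!
# Products of a bilinear form on pairs of variables; good bases
-/

open Finset Function

namespace Pool.Agent.V8H91.NV

section match_

variable {K : Type*} [Field K] {T : Type*} [AddCommGroup T] [Module K T]

/-- The multilinear form `x ↦ ∏ B (x (e (l, 0)), x (e (l, 1)))`, where the bijection `e` is a
partition of the variables into pairs. -/
def matchForm (B : T →ₗ[K] T →ₗ[K] K) {S : Type} {m : ℕ} (e : Fin m × Fin 2 ≃ S) :
    MultilinearMap K (fun _ : S => T) K where
  toFun x := ∏ l, B (x (e (l, 0))) (x (e (l, 1)))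
  map_update_add' := by
    intro inst x j a b
    obtain ⟨⟨l, c⟩, rfl⟩ := e.surjective j
    have key : ∀ v : T, ∏ k, B (update x (e (l, c)) v (e (k, 0))) (update x (e (l, c)) v (e (k, 1))) =
        B (update x (e (l, c)) v (e (l, 0))) (update x (e (l, c)) v (e (l, 1))) *
          ∏ k ∈ univ.erase l, B (x (e (k, 0))) (x (e (k, 1))) := by
      intro v
      rw [← Finset.mul_prod_erase univ _ (Finset.mem_univ l)]
      congr 1
      refine Finset.prod_congr rfl fun k hk => ?_
      have hkl : k ≠ l := (Finset.mem_erase.1 hk).1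
      rw [update_of_ne, update_of_ne]
      · intro h; exact hkl (congrArg Prod.fst (e.injective h))
      · intro h; exact hkl (congrArg Prod.fst (e.injective h))
    rw [key, key, key, ← add_mul]
    congr 1
    fin_cases c
    · have h01 : e (l, 1) ≠ e (l, 0) := fun h => by
        have := congrArg Prod.snd (e.injective h)
        exact absurd this (by simp)
      simp [update_of_ne h01]
    · have h01 : e (l, 0) ≠ e (l, 1) := fun h => by
        have := congrArg Prod.snd (e.injective h)
        exact absurd this (by simp)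
      simp [update_of_ne h01]
  map_update_smul' := by
    intro inst x j a b
    obtain ⟨⟨l, c⟩, rfl⟩ := e.surjective j
    have key : ∀ v : T, ∏ k, B (update x (e (l, c)) v (e (k, 0))) (update x (e (l, c)) v (e (k, 1))) =
        B (update x (e (l, c)) v (e (l, 0))) (update x (e (l, c)) v (e (l, 1))) *
          ∏ k ∈ univ.erase l, B (x (e (k, 0))) (x (e (k, 1))) := by
      intro v
      rw [← Finset.mul_prod_erase univ _ (Finset.mem_univ l)]
      congr 1
      refine Finset.prod_congr rfl fun k hk => ?_
      have hkl : k ≠ l := (Finset.mem_erase.1 hk).1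
      rw [update_of_ne, update_of_ne]
      · intro h; exact hkl (congrArg Prod.fst (e.injective h))
      · intro h; exact hkl (congrArg Prod.fst (e.injective h))
    rw [key, key, smul_eq_mul, ← mul_assoc]
    congr 1
    fin_cases c
    · have h01 : e (l, 1) ≠ e (l, 0) := fun h => by
        have := congrArg Prod.snd (e.injective h)
        exact absurd this (by simp)
      simp [update_of_ne h01]
    · have h01 : e (l, 0) ≠ e (l, 1) := fun h => by
        have := congrArg Prod.snd (e.injective h)
        exact absurd this (by simp)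
      simp [update_of_ne h01]

@[simp] theorem matchForm_apply (B : T →ₗ[K] T →ₗ[K] K) {S : Type} {m : ℕ}
    (e : Fin m × Fin 2 ≃ S) (x : S → T) :
    matchForm B e x = ∏ l, B (x (e (l, 0))) (x (e (l, 1))) := rfl

end match_

section good

variable {T : Type*} [AddCommGroup T] [Module ℚ T]

/-- A basis `t` with positive weights `w` such that the matrix inverse to the transposed Gram matrix
is `w i * w j * B (t i, t j)`. -/
def IsGood (B : T →ₗ[ℚ] T →ₗ[ℚ] ℚ) {J : Type} [Fintype J] [DecidableEq J]
    (t : Module.Basis J ℚ T) (w : J → ℚ) : Prop :=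
  (∀ j, 0 < w j) ∧ ∀ i j, ∑ k, w j * w k * B (t j) (t k) * B (t i) (t k) = if i = j then 1 else 0

theorem exists_good_symm [Module.Finite ℚ T] (B : T →ₗ[ℚ] T →ₗ[ℚ] ℚ)
    (hs : ∀ x y, B x y = B y x) (hnd : ∀ x, (∀ y, B x y = 0) → x = 0) :
    ∃ (J : Type) (_ : Fintype J) (_ : DecidableEq J) (t : Module.Basis J ℚ T) (w : J → ℚ),
      IsGood B t w := by
  have hS : LinearMap.IsSymm B := ⟨fun x y => hs x y⟩
  obtain ⟨t, ht⟩ := LinearMap.BilinForm.exists_orthogonal_basis (B := B) hS
  have h0 : ∀ i, B (t i) (t i) ≠ 0 := by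
    intro i h
    have h1 : ∀ y, B (t i) y = 0 := by
      intro y
      rw [← t.sum_repr y, map_sum]
      refine Finset.sum_eq_zero fun j _ => ?_
      rw [map_smul]
      by_cases hij : i = j
      · rw [← hij, h, smul_zero]
      · have := ht hij
        rw [this, smul_zero]
    exact t.ne_zero i (hnd _ h1)
  refine ⟨Fin (Module.finrank ℚ T), inferInstance, inferInstance, t,
    fun j => |B (t j) (t j)|⁻¹, fun j => inv_pos.2 (abs_pos.2 (h0 j)), fun i j => ?_⟩
  rw [Finset.sum_eq_single j]
  · by_cases hij : i = j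
    · subst hij
      rw [if_pos rfl]
      have h2 : |B (t i) (t i)| ≠ 0 := abs_ne_zero.2 (h0 i)
      field_simp
      rw [sq_abs]
    · rw [if_neg hij]
      have := ht hij
      rw [show B (t i) (t j) = 0 from this, mul_zero]
  · intro k _ hk
    have := ht (Ne.symm hk)
    rw [show B (t j) (t k) = 0 from this, mul_zero, zero_mul]
  · intro h
    exact absurd (Finset.mem_univ j) h

/-- hyperbolic families -/
def Hyp (B : T →ₗ[ℚ] T →ₗ[ℚ] ℚ) {g : ℕ} (u v : Fin g → T) : Prop :=
  (∀ i j, B (u i) (u j) = 0) ∧ (∀ i j, B (v i) (v j) = 0) ∧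
    ∀ i j, B (u i) (v j) = if i = j then 1 else 0

theorem Hyp.linInd {B : T →ₗ[ℚ] T →ₗ[ℚ] ℚ} (hs : ∀ x y, B x y = -B y x) {g : ℕ}
    {u v : Fin g → T} (h : Hyp B u v) :
    LinearIndependent ℚ (fun x : Fin g × Fin 2 => if x.2 = 0 then u x.1 else v x.1) := by
  rw [Fintype.linearIndependent_iff]
  intro c hc
  rw [Fintype.sum_prod_type] at hc
  simp only [Fin.sum_univ_two] at hc
  have hc' : ∑ x, (c (x, 0) • u x + c (x, 1) • v x) = 0 := by
    rw [← hc]
    refine Finset.sum_congr rfl fun x _ => ?_
    simp
  rintro ⟨k, a⟩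
  have h1 : c (k, 0) = 0 := by
    have := congrArg (fun z => B z (v k)) hc'
    simp only [map_sum, map_add, map_smul, LinearMap.sum_apply, LinearMap.add_apply,
      LinearMap.smul_apply, smul_eq_mul, map_zero, LinearMap.zero_apply] at this
    simpa [h.2.1, h.2.2] using this
  have h2 : c (k, 1) = 0 := by
    have := congrArg (fun z => B z (u k)) hc'
    simp only [map_sum, map_add, map_smul, LinearMap.sum_apply, LinearMap.add_apply,
      LinearMap.smul_apply, smul_eq_mul, map_zero, LinearMap.zero_apply] at this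
    have h3 : ∀ i, B (v i) (u k) = if k = i then -1 else 0 := by
      intro i
      rw [hs, h.2.2]
      split_ifs <;> simp
    simpa [h.1, h3] using this
  fin_cases a
  · exact h1
  · exact h2

theorem exists_good_alt [Module.Finite ℚ T] (B : T →ₗ[ℚ] T →ₗ[ℚ] ℚ)
    (hs : ∀ x y, B x y = -B y x) (hnd : ∀ x, (∀ y, B x y = 0) → x = 0) :
    ∃ (J : Type) (_ : Fintype J) (_ : DecidableEq J) (t : Module.Basis J ℚ T) (w : J → ℚ),
      IsGood B t w := by
  classical
  -- a maximal hyperbolic family
  have hbound : ∀ g, (∃ u v : Fin g → T, Hyp B u v) → g ≤ Module.finrank ℚ T := by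
    rintro g ⟨u, v, h⟩
    have h1 := (h.linInd hs).fintype_card_le_finrank
    rw [Fintype.card_prod, Fintype.card_fin, Fintype.card_fin] at h1
    omega
  have hex : ∃ g, ∃ u v : Fin g → T, Hyp B u v :=
    ⟨0, Fin.elim0, Fin.elim0, fun i => i.elim0, fun i => i.elim0, fun i => i.elim0⟩
  set g := Nat.findGreatest (fun g => ∃ u v : Fin g → T, Hyp B u v) (Module.finrank ℚ T) with hg
  obtain ⟨u, v, h⟩ : ∃ u v : Fin g → T, Hyp B u v := by
    obtain ⟨g0, h0⟩ := hex
    exact Nat.findGreatest_spec (P := fun g => ∃ u v : Fin g → T, Hyp B u v) (hbound g0 h0) h0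
  have hmax : ¬ ∃ u v : Fin (g + 1) → T, Hyp B u v := by
    intro h'
    have := Nat.le_findGreatest (P := fun g => ∃ u v : Fin g → T, Hyp B u v) (hbound _ h') h'
    omega
  have hvu : ∀ i j, B (v i) (u j) = if i = j then -1 else 0 := by
    intro i j
    rw [hs, h.2.2]
    split_ifs with h1 h2 h2
    · rfl
    · exact absurd h1.symm h2
    · exact absurd h2.symm h1
    · simp
  have haa : ∀ x, B x x = 0 := by
    intro x
    have := hs x x
    linarith
  -- the projection to the orthogonal complement
  let pr : T → T := fun x => x - ∑ i, (B x (v i) • u i - B x (u i) • v i)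
  have pru : ∀ x j, B (pr x) (u j) = 0 := by
    intro x j
    simp only [pr, map_sub, map_sum, map_smul, LinearMap.sub_apply, LinearMap.sum_apply,
      LinearMap.smul_apply, smul_eq_mul, h.1, hvu, mul_zero, zero_sub]
    simp
  have prv : ∀ x j, B (pr x) (v j) = 0 := by
    intro x j
    simp only [pr, map_sub, map_sum, map_smul, LinearMap.sub_apply, LinearMap.sum_apply,
      LinearMap.smul_apply, smul_eq_mul, h.2.1, h.2.2, mul_zero, sub_zero]
    simp
  have hz : ∀ x, pr x = 0 := by
    intro x
    by_contra hx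
    obtain ⟨y, hy⟩ : ∃ y, B (pr x) y ≠ 0 := by
      by_contra hcon
      push Not at hcon
      exact hx (hnd _ hcon)
    have hy' : B (pr x) (pr y) = B (pr x) y := by
      have h3 : B (pr x) (∑ i, (B y (v i) • u i - B y (u i) • v i)) = 0 := by
        rw [map_sum]
        exact Finset.sum_eq_zero fun i _ => by
          rw [map_sub, map_smul, map_smul, pru, prv, smul_zero, smul_zero, sub_zero]
      rw [show pr y = y - ∑ i, (B y (v i) • u i - B y (u i) • v i) from rfl, map_sub, h3, sub_zero]
    have uz : ∀ x j, B (u j) (pr x) = 0 := fun x j => by rw [hs, pru, neg_zero]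
    have vz : ∀ x j, B (v j) (pr x) = 0 := fun x j => by rw [hs, prv, neg_zero]
    apply hmax
    refine ⟨Fin.snoc u (pr x), Fin.snoc v ((B (pr x) y)⁻¹ • pr y), fun i j => ?_, fun i j => ?_,
      fun i j => ?_⟩
    · refine Fin.lastCases ?_ (fun i => ?_) i <;> refine Fin.lastCases ?_ (fun j => ?_) j
      · simp [haa]
      · simp [pru]
      · simp [uz]
      · simp [h.1]
    · refine Fin.lastCases ?_ (fun i => ?_) i <;> refine Fin.lastCases ?_ (fun j => ?_) j
      · simp [haa]
      · simp [prv]
      · simp [vz]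
      · simp [h.2.1]
    · refine Fin.lastCases ?_ (fun i => ?_) i <;> refine Fin.lastCases ?_ (fun j => ?_) j
      · simp [hy', hy]
      · have : Fin.last g ≠ j.castSucc := fun h => (Fin.castSucc_lt_last j).ne h.symm
        simp [prv, this]
      · have : i.castSucc ≠ Fin.last g := (Fin.castSucc_lt_last i).ne
        simp [uz, this]
      · simp [h.2.2]
  have hspan : ⊤ ≤ Submodule.span ℚ
      (Set.range (fun x : Fin g × Fin 2 => if x.2 = 0 then u x.1 else v x.1)) := by
    intro x _
    have h1 := hz x
    have h2 : x = ∑ i, (B x (v i) • u i - B x (u i) • v i) := sub_eq_zero.1 h1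
    rw [h2]
    refine Submodule.sum_mem _ fun i _ => Submodule.sub_mem _ ?_ ?_
    · exact Submodule.smul_mem _ _ (Submodule.subset_span ⟨(i, 0), by simp⟩)
    · exact Submodule.smul_mem _ _ (Submodule.subset_span ⟨(i, 1), by simp⟩)
  refine ⟨Fin g × Fin 2, inferInstance, inferInstance,
    Module.Basis.mk (h.linInd hs) hspan, fun _ => 1, fun _ => one_pos, ?_⟩
  rintro ⟨i, a⟩ ⟨j, b⟩
  simp only [Module.Basis.mk_apply, one_mul]
  rw [Fintype.sum_prod_type]
  simp only [Fin.sum_univ_two]
  fin_cases a <;> fin_cases b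
  · simp [h.1, h.2.2, Prod.ext_iff, eq_comm]
  · simp [h.1, h.2.1, h.2.2, hvu, Prod.ext_iff]
  · simp [h.1, h.2.1, h.2.2, hvu, Prod.ext_iff]
  · simp only [hvu, h.2.1, Prod.ext_iff]
    by_cases hij : i = j
    · subst hij
      simp [hvu, h.2.1]
    · simp [hvu, h.2.1, hij, Ne.symm hij]

end good

end Pool.Agent.V8H91.NV
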