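import Pool.Agent.V8H91.NV.Pair

/-!
# Algebraic classes on the tensor powers of an `S`-linear category: definitions
-/

open Finset Function

namespace Pool.Agent.V8H91.NV

universe u v w x y

variable {A : Type u} [AddCommGroup A] [Module ℚ A] {T : Type v} [AddCommGroup T] [Module ℚ T]
  {E : Type w} [AddCommGroup E] [Module ℚ E]

/-- The classes on the fibres of the categories `𝒞 ^ n ⊠ 𝒟`. `A × T` is the K-theory of the fibre of
`𝒞` at the base point, `E` is the one of `𝒟`, and `P` is the set of the points (with a path to the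
base point, by which the K-theory of all fibres is identified with the one of the fibre at the base
point). By the Euler form the elements of `K(𝒞) ^ (⊗ n) ⊗ K(𝒟)` are multilinear maps
`(A × T) ^ n → E`. For every point: the subspaces of the algebraic classes. -/
structure ClassData (P : Type x) (A : Type u) (T : Type v) (E : Type w) [AddCommGroup A]
    [Module ℚ A] [AddCommGroup T] [Module ℚ T] [AddCommGroup E] [Module ℚ E] where
  /-- the algebraic classes of `𝒟` at the point `p` -/
  base : P → Submodule ℚ E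
  /-- the algebraic classes of `𝒞 ^ n ⊠ 𝒟` at the point `p` -/
  cls : P → ∀ n : ℕ, Submodule ℚ (MultilinearMap ℚ (fun _ : Fin n => A × T) E)

/-- The form `x ↦ ∏ B (x_a, x_b)`, the product over the pairs of variables `a = e (l, 0)`,
`b = e (l, 1)`, on the second components. -/
def pairs (A : Type u) [AddCommGroup A] [Module ℚ A] (B : T →ₗ[ℚ] T →ₗ[ℚ] ℚ) {n m : ℕ}
    (e : Fin m × Fin 2 ≃ Fin n) : MultilinearMap ℚ (fun _ : Fin n => A × T) ℚ :=
  (matchForm B e).compLinearMap fun _ => LinearMap.snd ℚ A T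

/-- Contraction with an algebraic class `a` of one factor `𝒞` preserves algebraic classes. -/
def EvalClosed {P : Type x} (𝒜 : ClassData P A T E) : Prop :=
  ∀ (p : P) (n : ℕ) (j : Fin (n + 1)), ∀ h ∈ 𝒜.cls p (n + 1), ∀ a : A,
    h.curryMid j (a, 0) ∈ 𝒜.cls p n

/-- Exterior product with an algebraic class of a new factor `𝒞` preserves algebraic classes; `l` is
the Euler pairing with this class. -/
def InsertClosed {P : Type x} (𝒜 : ClassData P A T E) : Prop :=
  ∀ (p : P) (n : ℕ) (j : Fin (n + 1)), ∀ h ∈ 𝒜.cls p n, ∀ l : A →ₗ[ℚ] ℚ,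
    LinearMap.uncurryMid j ((l ∘ₗ LinearMap.fst ℚ A T).smulRight h) ∈ 𝒜.cls p (n + 1)

/-- The exterior products of an algebraic class of `𝒟` and the `T`-parts of classes `κ`, for a
partition of the factors `𝒞` into pairs, are algebraic. -/
def PairsClosed {P : Type x} (𝒜 : ClassData P A T E) (B : T →ₗ[ℚ] T →ₗ[ℚ] ℚ) : Prop :=
  ∀ (p : P) (n m : ℕ) (e : Fin m × Fin 2 ≃ Fin n), ∀ w ∈ 𝒜.base p,
    (pairs A B e).smulRight w ∈ 𝒜.cls p n

/-- The contraction of `h` for the partition `e` of the variables into pairs, by the bases `t`, `t'`. -/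
noncomputable def contraction {n m : ℕ} (e : Fin m × Fin 2 ≃ Fin n)
    (h : MultilinearMap ℚ (fun _ : Fin n => A × T) E) {J : Type} [Fintype J] (t t' : J → T) : E :=
  ∑ y : Fin m → J, h (plug e (fun j => ((0 : A), t j)) (fun j => ((0 : A), t' j)) y)

/-- The contractions of algebraic classes with the `T`-parts of classes `κ`, for a partition of the
factors `𝒞` into pairs, are algebraic; `t` and `t'` are dual bases of `T` for the form `B`. -/
def ContractClosed {P : Type x} (𝒜 : ClassData P A T E) (B : T →ₗ[ℚ] T →ₗ[ℚ] ℚ) : Prop :=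
  ∀ (p : P) (n m : ℕ) (e : Fin m × Fin 2 ≃ Fin n), ∀ h ∈ 𝒜.cls p n,
    ∀ (J : Type) [Fintype J] [DecidableEq J] (t : Module.Basis J ℚ T) (t' : J → T),
      (∀ i j, B (t i) (t' j) = if i = j then 1 else 0) → contraction e h t t' ∈ 𝒜.base p

/-- Formal properties of algebraic classes. The classes in `A` are algebraic at all points, and `T`
is the orthogonal complement of `A` for the Euler form. There is a class `κ` of `𝒞 ⊠ 𝒞` which is
algebraic at all points and whose part in `T ⊗ T` gives, by the Euler form, the form `B` on `T`. -/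
structure IsClassSystem {P : Type x} (𝒜 : ClassData P A T E) (B : T →ₗ[ℚ] T →ₗ[ℚ] ℚ) : Prop where
  eval_mem : EvalClosed 𝒜
  insert_mem : InsertClosed 𝒜
  pairs_mem : PairsClosed 𝒜 B
  contract_mem : ContractClosed 𝒜 B

/-- The action of the fundamental group on `T` (by `ρ`) and on `E` (by `σ`): it respects the
nondegenerate form `B`, the space `T` is irreducible under all subgroups of finite index, and there
is an element `γ` which acts trivially on `E` and such that `γ - 1` has rank one on `T`. -/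
structure RankOneMonodromy {Γ : Type y} [Group Γ] (ρ : Γ →* (T →ₗ[ℚ] T)) (σ : Γ →* (E →ₗ[ℚ] E))
    (B : T →ₗ[ℚ] T →ₗ[ℚ] ℚ) : Prop where
  nondeg : ∀ t, (∀ t', B t t' = 0) → t = 0
  inv : ∀ g t t', B (ρ g t) (ρ g t') = B t t'
  irred : ∀ Δ : Subgroup Γ, Δ.FiniteIndex → ∀ U : Submodule ℚ T,
    (∀ g ∈ Δ, ∀ t ∈ U, ρ g t ∈ U) → U = ⊥ ∨ U = ⊤
  rank_one : ∃ γ, σ γ = 1 ∧ Module.finrank ℚ (LinearMap.range (ρ γ - 1)) = 1

/-- The element of `K(𝒞) ^ (⊗ n) ⊗ K(𝒟)` is a global section of the local system: it is fixed by the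
fundamental group, which acts trivially on `A`. -/
def IsFlat {Γ : Type y} [Group Γ] (ρ : Γ →* (T →ₗ[ℚ] T)) (σ : Γ →* (E →ₗ[ℚ] E)) {n : ℕ}
    (φ : MultilinearMap ℚ (fun _ : Fin n => A × T) E) : Prop :=
  ∀ g x, φ (fun j => ((x j).1, ρ g (x j).2)) = σ g (φ x)

/-- **The variational Hodge conjecture** for a local system: the global sections `φ` (those with
`flat φ`) which are algebraic at one point are algebraic at all points. -/
def Variational {P : Type x} {X : Type*} [AddCommGroup X] [Module ℚ X] (flat : X → Prop)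
    (alg : P → Submodule ℚ X) : Prop :=
  ∀ φ, flat φ → ∀ p q, φ ∈ alg p → φ ∈ alg q

/-- The variational Hodge conjecture for `𝒟`. -/
def VHCBase {P : Type x} {Γ : Type y} [Group Γ] (σ : Γ →* (E →ₗ[ℚ] E)) (𝒜 : ClassData P A T E) :
    Prop := Variational (fun w : E => ∀ g, σ g w = w) 𝒜.base

/-- The variational Hodge conjecture for `𝒞 ^ n ⊠ 𝒟`. -/
def VHCPower {P : Type x} {Γ : Type y} [Group Γ] (ρ : Γ →* (T →ₗ[ℚ] T)) (σ : Γ →* (E →ₗ[ℚ] E))
    (𝒜 : ClassData P A T E) (n : ℕ) : Prop := Variational (IsFlat ρ σ) fun p => 𝒜.cls p n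

/-- The variational Hodge conjecture for all direct summands of `𝒞 ^ n ⊠ 𝒟`: a summand is given by an
idempotent operator `π` on the K-theory which maps algebraic classes to algebraic classes (its
projection functor), and its algebraic classes are the images under `π` of algebraic classes. -/
def VHCSummands {P : Type x} {Γ : Type y} [Group Γ] (ρ : Γ →* (T →ₗ[ℚ] T))
    (σ : Γ →* (E →ₗ[ℚ] E)) (𝒜 : ClassData P A T E) (n : ℕ) : Prop :=
  ∀ π : Module.End ℚ (MultilinearMap ℚ (fun _ : Fin n => A × T) E),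
    (∀ φ, π (π φ) = π φ) → (∀ p, ∀ φ ∈ 𝒜.cls p n, π φ ∈ 𝒜.cls p n) →
      Variational (IsFlat ρ σ) fun p => (𝒜.cls p n).map π

end Pool.Agent.V8H91.NV
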