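import Pool.Agent.TH125.Gal.Blk
import Pool.Agent.Y127.FftO
import Pool.Agent.V8H91.NV.Alg

/-!
# Equivariant multilinear maps for a group with an element of rank one
-/

open Finset Function Pool.Agent.TH125.Gal Pool.Agent.TH125.Nod

namespace Pool.Agent.V8H91.NV

theorem fewRoots_rat : FewRoots ℚ := by
  have hsub : {y : ℚ | ∃ ζ : AlgebraicClosure ℚ, (∃ m ≥ 1, ζ ^ m = 1) ∧
      algebraMap ℚ (AlgebraicClosure ℚ) y = ζ + ζ⁻¹} ⊆
      ((fun n : ℤ => (n : ℚ)) '' (Set.Icc (-2) 2)) := by
    rintro y ⟨ζ, ⟨m, hm, hζ⟩, hy⟩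
    have hint : IsIntegral ℤ ζ := by
      refine ⟨Polynomial.X ^ m - 1, Polynomial.monic_X_pow_sub_C 1 (by omega), ?_⟩
      simp [hζ]
    have hint' : IsIntegral ℤ ζ⁻¹ := by
      refine ⟨Polynomial.X ^ m - 1, Polynomial.monic_X_pow_sub_C 1 (by omega), ?_⟩
      simp [hζ]
    have h1 : IsIntegral ℤ (algebraMap ℚ (AlgebraicClosure ℚ) y) := by
      rw [hy]
      exact hint.add hint'
    have h2 : IsIntegral ℤ y :=
      (isIntegral_algebraMap_iff (algebraMap ℚ (AlgebraicClosure ℚ)).injective).1 h1
    obtain ⟨k, hk⟩ := IsIntegrallyClosed.isIntegral_iff.1 h2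
    have hk' : (k : ℚ) = y := hk
    -- bound
    have hal : Algebra.IsAlgebraic ℚ (AlgebraicClosure ℚ) := AlgebraicClosure.isAlgebraic ℚ
    let φ : AlgebraicClosure ℚ →ₐ[ℚ] ℂ := IsAlgClosed.lift
    have h3 : ‖φ ζ‖ = 1 := by
      have h4 : (φ ζ) ^ m = 1 := by rw [← map_pow, hζ, map_one]
      exact Complex.norm_eq_one_of_pow_eq_one h4 (by omega)
    have h5 : ((y : ℚ) : ℂ) = φ ζ + (φ ζ)⁻¹ := by
      rw [← map_inv₀, ← map_add, ← hy]
      simp
    have h6 : ‖((y : ℚ) : ℂ)‖ ≤ 2 := by
      rw [h5]
      refine (norm_add_le _ _).trans ?_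
      rw [norm_inv, h3]
      norm_num
    have h7 : |(k : ℝ)| ≤ 2 := by
      rw [← hk'] at h6
      have h8 : (((k : ℚ) : ℂ)) = ((k : ℝ) : ℂ) := by push_cast; rfl
      rw [h8, Complex.norm_real, Real.norm_eq_abs] at h6
      exact h6
    refine ⟨k, ⟨?_, ?_⟩, hk'⟩
    · have := (abs_le.1 h7).1
      exact_mod_cast this
    · have := (abs_le.1 h7).2
      exact_mod_cast this
  exact ((Set.finite_Icc _ _).image _).subset hsub

variable {T : Type*} [AddCommGroup T] [Module ℚ T] {E : Type*} [AddCommGroup E] [Module ℚ E]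
  {G : Type*} [Group G] {B : T →ₗ[ℚ] T →ₗ[ℚ] ℚ} {ρ : G →* (T →ₗ[ℚ] T)} {σ : G →* (E →ₗ[ℚ] E)}

/-- An invariant nondegenerate form on a space with an irreducible action containing an element
of rank one is symmetric or alternating, and the element is a reflection or a transvection. -/
theorem exists_sign [Module.Finite ℚ T] (hnd : ∀ x, (∀ y, B x y = 0) → x = 0)
    (hB : ∀ g x y, B (ρ g x) (ρ g y) = B x y) (hSI : SI ρ) {γ : G}
    (hγ : Module.finrank ℚ (LinearMap.range (ρ γ - 1)) = 1) :
    ∃ (s : ℤ) (δ : T) (c : ℚ), (s = 1 ∨ s = -1) ∧ (∀ x y, B x y = (s : ℚ) * B y x) ∧ δ ≠ 0 ∧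
      c ≠ 0 ∧ (∀ x, ρ γ x = x + (c * B δ x) • δ) ∧ (s = 1 → c * B δ δ = -2) := by
  obtain ⟨⟨δ, hδr⟩, hδ0, hδ⟩ := finrank_eq_one_iff'.1 hγ
  have hδ0' : δ ≠ 0 := fun h => hδ0 (Subtype.ext h)
  have h1 : ∀ x, ∃ a : ℚ, a • δ = ρ γ x - x := by
    intro x
    obtain ⟨a, ha⟩ := hδ ⟨(ρ γ - 1) x, LinearMap.mem_range_self _ x⟩
    exact ⟨a, congrArg Subtype.val ha⟩
  choose l hl using h1
  have hl' : ∀ x, ρ γ x = x + l x • δ := fun x => by rw [hl]; abel
  obtain ⟨x0, hx0⟩ : ∃ x0, l x0 = 1 := by
    obtain ⟨x0, hx0⟩ := hδr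
    refine ⟨x0, smul_left_injective ℚ hδ0' ?_⟩
    change l x0 • δ = (1 : ℚ) • δ
    rw [hl, one_smul, ← hx0]
    rfl
  have key : ∀ x y, l y * B x δ + l x * B δ y + l x * l y * B δ δ = 0 := by
    intro x y
    have h := hB γ x y
    rw [hl', hl'] at h
    simp only [map_add, map_smul, LinearMap.add_apply, LinearMap.smul_apply, smul_eq_mul] at h
    linear_combination h
  -- `B δ y = c1 * l y`, `B x δ = c2 * l x`
  have k1 : ∀ y, B δ y = (-(B x0 δ) - B δ δ) * l y := by
    intro y
    have h := key x0 y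
    rw [hx0] at h
    linear_combination h
  have k2 : ∀ x, B x δ = (-(B δ x0) - B δ δ) * l x := by
    intro x
    have h := key x x0
    rw [hx0] at h
    linear_combination h
  set c1 := -(B x0 δ) - B δ δ with hc1
  set c2 := -(B δ x0) - B δ δ with hc2
  have e1 : B δ x0 = c1 := by rw [k1, hx0, mul_one]
  have e2 : B x0 δ = c2 := by rw [k2, hx0, mul_one]
  have hc10 : c1 ≠ 0 := by
    intro h
    apply hδ0'
    refine hnd δ fun y => ?_
    rw [k1, h, zero_mul]
  have e3 : c1 + c2 + B δ δ = 0 := by rw [hc1, e2]; ring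
  have e4 : B δ δ = c1 * l δ := k1 δ
  have e5 : B δ δ = c2 * l δ := k2 δ
  have hdich : c2 = c1 ∨ (c2 = -c1 ∧ B δ δ = 0) := by
    have h : (c1 - c2) * l δ = 0 := by linear_combination e5 - e4
    rcases mul_eq_zero.1 h with h | h
    · left; linarith
    · right
      have h0 : B δ δ = 0 := by rw [e4, h, mul_zero]
      exact ⟨by rw [h0] at e3; linarith, h0⟩
  -- the span of the orbit
  have hspan : Submodule.span ℚ (Set.range fun g => ρ g δ) = ⊤ := by
    have h := hSI ⊤ inferInstance (Submodule.span ℚ (Set.range fun g => ρ g δ)) (by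
      intro g _ x hx
      induction hx using Submodule.span_induction with
      | mem x hx =>
        obtain ⟨g', rfl⟩ := hx
        refine Submodule.subset_span ⟨g * g', ?_⟩
        change ρ (g * g') δ = ρ g (ρ g' δ)
        rw [map_mul]
        rfl
      | zero => rw [map_zero]; exact Submodule.zero_mem _
      | add x y _ _ hx hy => rw [map_add]; exact Submodule.add_mem _ hx hy
      | smul q x _ hx => rw [map_smul]; exact Submodule.smul_mem _ _ hx)
    rcases h with h | h
    · exfalso
      apply hδ0'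
      have : ρ 1 δ ∈ Submodule.span ℚ (Set.range fun g => ρ g δ) :=
        Submodule.subset_span ⟨1, rfl⟩
      rw [h, Submodule.mem_bot, map_one] at this
      exact this
    · exact h
  have hsgn : ∀ s : ℚ, (c2 = s * c1) → ∀ x y, B x y = s * B y x := by
    intro s hs x y
    have hy : y ∈ Submodule.span ℚ (Set.range fun g => ρ g δ) := by rw [hspan]; trivial
    have hδs : ∀ x, B x δ = s * B δ x := fun x => by rw [k2, k1, hs]; ring
    induction hy using Submodule.span_induction with
    | mem y hy =>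
      obtain ⟨g, rfl⟩ := hy
      have h := hδs (ρ g⁻¹ x)
      rw [← hB g, ← hB g δ, rho_inv] at h
      exact h
    | zero => simp
    | add y z _ _ hy hz =>
      rw [map_add, hy, hz, map_add, LinearMap.add_apply]
      ring
    | smul q y _ hy =>
      rw [map_smul, hy, map_smul, LinearMap.smul_apply, smul_eq_mul, smul_eq_mul]
      ring
  have hfin : ∀ x, ρ γ x = x + (c1⁻¹ * B δ x) • δ := by
    intro x
    rw [hl', k1, ← mul_assoc, inv_mul_cancel₀ hc10, one_mul]
  rcases hdich with h | ⟨h, h0⟩
  · refine ⟨1, δ, c1⁻¹, Or.inl rfl, fun x y => ?_, hδ0', inv_ne_zero hc10, hfin, fun _ => ?_⟩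
    · rw [Int.cast_one]
      exact hsgn 1 (by rw [h, one_mul]) x y
    · have h9 : B δ δ = -2 * c1 := by linarith
      rw [h9]
      field_simp
  · refine ⟨-1, δ, c1⁻¹, Or.inr rfl, fun x y => ?_, hδ0', inv_ne_zero hc10, hfin, fun h => ?_⟩
    · rw [Int.cast_neg, Int.cast_one]
      exact hsgn (-1) (by rw [h]; ring) x y
    · norm_num at h

/-- the span of the products of the form on pairs with values in `E` -/
def MSpan (B : T →ₗ[ℚ] T →ₗ[ℚ] ℚ) (E : Type*) [AddCommGroup E] [Module ℚ E] (S : Type) :
    Submodule ℚ (MultilinearMap ℚ (fun _ : S => T) E) :=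
  Submodule.span ℚ {h | ∃ (m : ℕ) (e : Fin m × Fin 2 ≃ S) (w : E), h = (matchForm B e).smulRight w}

theorem mem_MSpan_of_Gen {S : Type} [Fintype S] [DecidableEq S]
    (h : MultilinearMap ℚ (fun _ : S => T) E) {J : Type} [Fintype J] [DecidableEq J]
    (t : Module.Basis J ℚ T)
    (hG : (fun r : S → J => h fun j => t (r j)) ∈ Gen (fun _ : J => ())
      (Matrix.of fun i j => B (t i) (t j)) (fun _ : S => ())) : h ∈ MSpan B E S := by
  have key : ∀ f : (S → J) → E, f ∈ Gen (fun _ : J => ())
      (Matrix.of fun i j => B (t i) (t j)) (fun _ : S => ()) →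
      ∃ H ∈ MSpan B E S, ∀ r, f r = H fun j => t (r j) := by
    intro f hf
    unfold Gen at hf
    induction hf using Submodule.span_induction with
    | mem f hf =>
      obtain ⟨m, e, w, rfl⟩ := hf
      refine ⟨(matchForm B e).smulRight w, Submodule.subset_span ⟨m, e, w, rfl⟩, fun r => ?_⟩
      unfold gen
      rw [if_pos (fun _ => rfl), MultilinearMap.smulRight_apply, matchForm_apply]
      rfl
    | zero => exact ⟨0, Submodule.zero_mem _, fun r => rfl⟩
    | add x y _ _ hx hy =>
      obtain ⟨H, hH, h1⟩ := hx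
      obtain ⟨H', hH', h2⟩ := hy
      exact ⟨H + H', Submodule.add_mem _ hH hH', fun r => by
        rw [Pi.add_apply, h1, h2, add_apply]⟩
    | smul q x _ hx =>
      obtain ⟨H, hH, h1⟩ := hx
      exact ⟨q • H, Submodule.smul_mem _ _ hH, fun r => by
        rw [Pi.smul_apply, h1, smul_apply]⟩
  obtain ⟨H, hH, h1⟩ := key _ hG
  have h2 : h = H := Module.Basis.ext_multilinear (fun _ => t) fun r => h1 r
  rw [h2]
  exact hH

/-- **Equivariant multilinear maps are combinations of products of the form on pairs.** -/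
theorem mem_MSpan [Module.Finite ℚ T] (hnd : ∀ x, (∀ y, B x y = 0) → x = 0)
    (hB : ∀ g x y, B (ρ g x) (ρ g y) = B x y) (hSI : SI ρ) {γ : G}
    (hγ : Module.finrank ℚ (LinearMap.range (ρ γ - 1)) = 1) (hσ : σ γ = 1)
    {S : Type} [Fintype S] [DecidableEq S] (h : MultilinearMap ℚ (fun _ : S => T) E)
    (hh : ∀ g v, h (fun j => ρ g (v j)) = σ g (h v)) : h ∈ MSpan B E S := by
  obtain ⟨s, δ, c, hs, hsy, hδ, hc, hg, hrefl⟩ := exists_sign hnd hB hSI hγ
  have hE : Eqv ρ σ h := ⟨⊤, inferInstance, fun g _ v => hh g v⟩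
  have hB' : ∀ g x y, B (ρ g x) (ρ g y) = (1 : ℚ) * B x y := fun g x y => by rw [hB, one_mul]
  rcases hs with rfl | rfl
  · -- symmetric
    have hsy' : ∀ x y, B x y = B y x := fun x y => by rw [hsy, Int.cast_one, one_mul]
    have h2 := hrefl rfl
    have hq : B δ δ ≠ 0 := by
      intro h0
      rw [h0, mul_zero] at h2
      norm_num at h2
    let N : Submodule ℚ T := LinearMap.ker (B δ)
    let b := Module.finBasis ℚ N
    let t := Module.Basis.mkFinCons δ b (by
      intro a x hx h0
      have h3 := congrArg (B δ) h0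
      rw [map_add, map_smul, map_zero, show B δ x = 0 from hx, add_zero, smul_eq_mul] at h3
      exact (mul_eq_zero.1 h3).resolve_right hq) (by
      intro z
      refine ⟨-(B δ z / B δ δ), ?_⟩
      change B δ (z + -(B δ z / B δ δ) • δ) = 0
      rw [map_add, map_smul, smul_eq_mul]
      field_simp
      ring)
    have ht0 : t 0 = δ := by
      simp [t, Module.Basis.coe_mkFinCons]
    have hts : ∀ i, t (Fin.succ i) = b i := by
      intro i
      simp [t, Module.Basis.coe_mkFinCons]
    have hort : ∀ i, B δ (t (Fin.succ i)) = 0 := fun i => by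
      rw [hts]
      exact (b i).2
    -- the inverse of the Gram matrix
    have hBnd : LinearMap.BilinForm.Nondegenerate (LinearMap.flip B) := by
      refine ⟨fun x hx => hnd x fun y => ?_, fun x hx => hnd x fun y => hx y⟩
      rw [hsy, show B y x = 0 from hx y, mul_zero]
    obtain ⟨R, hR⟩ : ∃ R : Matrix (Fin (Module.finrank ℚ N + 1)) (Fin (Module.finrank ℚ N + 1)) ℚ,
        (Matrix.of fun i j => B (t i) (t j)) * R = 1 := by
      refine ⟨Matrix.of fun j k =>
        t.repr (LinearMap.BilinForm.dualBasis (LinearMap.flip B) hBnd t k) j, ?_⟩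
      ext i k
      rw [Matrix.mul_apply, Matrix.one_apply]
      simp only [Matrix.of_apply]
      have h1 := LinearMap.BilinForm.apply_dualBasis_left (B := LinearMap.flip B) hBnd t k i
      rw [LinearMap.flip_apply] at h1
      rw [← h1]
      conv_rhs => rw [← t.sum_repr (LinearMap.BilinForm.dualBasis (LinearMap.flip B) hBnd t k)]
      rw [map_sum]
      refine Finset.sum_congr rfl fun j _ => ?_
      rw [map_smul, smul_eq_mul, mul_comm]
    refine mem_MSpan_of_Gen h t ?_
    refine Pool.Agent.Y127.fftO (Q := Matrix.of fun i j => B (t i) (t j)) (R := R) (o := 0)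
      (fun a b => hsy' _ _) hR ?_ (Fintype.card S) S _ rfl ?_ ?_
    · intro q hq0
      obtain ⟨i, rfl⟩ := Fin.exists_succ_eq.2 hq0
      rw [Matrix.of_apply, ht0]
      exact hort i
    · intro u v _ r
      by_cases huv : u = v
      · subst huv
        refine Finset.sum_eq_zero fun j _ => ?_
        rw [one_mul, sub_self]
      have h2 : 2 ≤ Module.finrank ℚ T := by
        have h3 := Module.finrank_eq_card_basis t
        rw [h3, Fintype.card_fin]
        have h4 : 0 < Module.finrank ℚ N := by
          by_contra h4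
          have h5 : Module.finrank ℚ N = 0 := by omega
          apply huv
          have hu := u.2
          have hv := v.2
          exact Fin.ext (by omega)
        omega
      have h1 := (all_mem (S := S) (σ := σ) (Or.inl rfl) hsy hnd (fun _ => one_ne_zero) hB' hSI hδ hc
        hg rfl hσ (fun _ => ⟨fewRoots_rat, h2⟩) (t u) (t v)).2 h hE (fun j => t (r j))
      rw [← h1]
      refine Finset.sum_congr rfl fun j _ => ?_
      have e1 : (rk B (t v) (t u) - ((1 : ℤ) : ℚ) • rk B (t u) (t v)) (t (r j)) =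
          B (t v) (t (r j)) • t u - (1 * B (t u) (t (r j))) • t v := by
        rw [LinearMap.sub_apply, LinearMap.smul_apply, rk_apply, rk_apply, smul_smul, Int.cast_one]
      rw [e1, MultilinearMap.map_update_sub, MultilinearMap.map_update_smul,
        MultilinearMap.map_update_smul]
      have e2 : ∀ a, (fun i => t (update r j a i)) = update (fun i => t (r i)) j (t a) := by
        intro a
        funext i
        by_cases hi : i = j
        · subst hi
          rw [update_self, update_self]
        · rw [update_of_ne hi, update_of_ne hi]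
      change B (t v) (t (r j)) • h (fun i => t (update r j u i)) -
        ((1 : ℚ) * B (t u) (t (r j))) • h (fun i => t (update r j v i)) = _
      rw [e2, e2]
    · intro r hr
      have h3 := hh γ fun j => t (r j)
      rw [hσ, Module.End.one_apply] at h3
      have h4 : ∀ i, ρ γ (t i) = (if i = 0 then (-1 : ℚ) else 1) • t i := by
        intro i
        refine Fin.cases ?_ (fun i => ?_) i
        · rw [if_pos rfl, hg, ht0]
          have : c * B δ δ = -2 := hrefl rfl
          rw [this]
          module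
        · rw [if_neg (Fin.succ_ne_zero i), hg, hort, mul_zero, zero_smul, add_zero, one_smul]
      have h5 : h (fun j => ρ γ (t (r j))) =
          (∏ j, if r j = 0 then (-1 : ℚ) else 1) • h fun j => t (r j) := by
        rw [← MultilinearMap.map_smul_univ]
        congr 1
        funext j
        exact h4 (r j)
      rw [Finset.prod_ite, Finset.prod_const_one, mul_one, Finset.prod_const] at h5
      have h6 : (-1 : ℚ) ^ (univ.filter fun j => r j = 0).card = -1 := Odd.neg_one_pow hr
      rw [h6, h3] at h5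
      have h7 : (2 : ℚ) • h (fun j => t (r j)) = 0 := by
        rw [two_smul]
        nth_rw 1 [h5]
        simp
      exact (smul_eq_zero.1 h7).resolve_left two_ne_zero
  · -- alternating
    refine mem_MSpan_of_Gen h (Module.finBasis ℚ T) ?_
    exact gen_mem (s := -1) (Or.inr rfl) hsy hnd (μ := fun _ => 1) (fun _ => one_ne_zero) hB' hSI hδ
      hc hg rfl hσ (fun h => absurd h (by norm_num)) hE _ (fun h => absurd h (by norm_num))

end Pool.Agent.V8H91.NV
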