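import Pool.Agent.V8H91.NV.Defs

/-!
# The variational Hodge conjecture for tensor powers: the proof
-/

open Finset Function

namespace Pool.Agent.V8H91.NV

universe u v w x y

variable {A : Type u} [AddCommGroup A] [Module ℚ A] {T : Type v} [AddCommGroup T] [Module ℚ T]
  {E : Type w} [AddCommGroup E] [Module ℚ E] {P : Type x} {Γ : Type y} [Group Γ]
  {ρ : Γ →* (T →ₗ[ℚ] T)} {σ : Γ →* (E →ₗ[ℚ] E)} {B : T →ₗ[ℚ] T →ₗ[ℚ] ℚ} {𝒜 : ClassData P A T E}

theorem sign_or [Module.Finite ℚ T] (hm : RankOneMonodromy ρ σ B) :
    (∀ x y, B x y = B y x) ∨ ∀ x y, B x y = -B y x := by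
  obtain ⟨γ, -, hγ⟩ := hm.rank_one
  obtain ⟨s, -, -, hs, hsy, -⟩ := exists_sign hm.nondeg hm.inv hm.irred hγ
  rcases hs with rfl | rfl
  · left
    intro x y
    rw [hsy, Int.cast_one, one_mul]
  · right
    intro x y
    rw [hsy, Int.cast_neg, Int.cast_one, neg_one_mul]

theorem mat_inv (hm : RankOneMonodromy ρ σ B) {S : Type} {μ : MultilinearMap ℚ (fun _ : S => T) ℚ}
    (hμ : μ ∈ Mat B S) (g : Γ) (x : S → T) : μ (fun j => ρ g (x j)) = μ x := by
  unfold Mat at hμ
  induction hμ using Submodule.span_induction with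
  | mem μ hμ =>
    obtain ⟨m, e, rfl⟩ := hμ
    rw [matchForm_apply, matchForm_apply]
    exact Finset.prod_congr rfl fun l _ => hm.inv _ _ _
  | zero => rfl
  | add x y _ _ hx hy => rw [add_apply, hx, hy, add_apply]
  | smul q x _ hx => rw [smul_apply, hx, smul_apply]

theorem smulRight_mem (hc : IsClassSystem 𝒜 B) {n : ℕ} {μ : MultilinearMap ℚ (fun _ : Fin n => T) ℚ}
    (hμ : μ ∈ Mat B (Fin n)) {q : P} {w : E} (hw : w ∈ 𝒜.base q) :
    (μ.compLinearMap fun _ => LinearMap.snd ℚ A T).smulRight w ∈ 𝒜.cls q n := by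
  unfold Mat at hμ
  induction hμ using Submodule.span_induction with
  | mem μ hμ =>
    obtain ⟨m, e, rfl⟩ := hμ
    exact hc.pairs_mem q n m e w hw
  | zero =>
    convert Submodule.zero_mem _ using 1
    ext x
    simp
  | add x y _ _ hx hy =>
    convert Submodule.add_mem _ hx hy using 1
    ext z
    simp [add_smul]
  | smul a x _ hx =>
    convert Submodule.smul_mem _ a hx using 1
    ext z
    simp [mul_smul]

/-- the part in `T` -/
def tpart {n : ℕ} (h : MultilinearMap ℚ (fun _ : Fin n => A × T) E) :
    MultilinearMap ℚ (fun _ : Fin n => T) E := h.compLinearMap fun _ => LinearMap.inr ℚ A T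

theorem tpart_mem [Module.Finite ℚ T] (hm : RankOneMonodromy ρ σ B) (hc : IsClassSystem 𝒜 B)
    (hD : Variational (fun w : E => ∀ g, σ g w = w) 𝒜.base) {n : ℕ}
    {h : MultilinearMap ℚ (fun _ : Fin n => A × T) E} (hf : IsFlat ρ σ h) {p q : P}
    (hp : h ∈ 𝒜.cls p n) :
    (tpart h).compLinearMap (fun _ => LinearMap.snd ℚ A T) ∈ 𝒜.cls q n := by
  classical
  obtain ⟨γ, hσ, hγ⟩ := hm.rank_one
  have heq : ∀ g v, tpart h (fun j => ρ g (v j)) = σ g (tpart h v) := by
    intro g v
    exact hf g fun j => (0, v j)
  have hM := mem_MSpan (E := E) hm.nondeg hm.inv hm.irred hγ hσ (tpart h) heq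
  obtain ⟨J, iJ, dJ, t, t', d, μ, c, hdual, hμ, hcμ, hexp, hin⟩ :=
    exists_dual (E := E) (sign_or hm) hm.nondeg (Fin n)
  have h1 := hexp _ hM
  set w : Fin d → E := fun k => ∑ r, c r k • tpart h fun j => t (r j) with hw
  have hbase : ∀ k, w k ∈ 𝒜.base p := by
    intro k
    refine hin (tpart h) (𝒜.base p) (fun m e => ?_) k
    have h2 := hc.contract_mem p n m e h hp J t t' hdual
    unfold contraction at h2
    convert h2 using 1
    refine Finset.sum_congr rfl fun y _ => ?_
    change h (fun j => (0, plug e t t' y j)) = _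
    congr 1
    funext j
    unfold plug
    split_ifs <;> rfl
  have h3 : ∀ z, tpart h z = ∑ k, μ k z • w k := by
    intro z
    conv_lhs => rw [h1]
    rw [_root_.sum_apply]
    rfl
  have hinv : ∀ k g, σ g (w k) = w k := by
    intro k g
    have h4 : ∀ z, ∑ l, μ l z • (σ g (w l) - w l) = 0 := by
      intro z
      have h5 := heq g z
      rw [h3, h3, map_sum] at h5
      simp only [smul_sub, Finset.sum_sub_distrib]
      rw [sub_eq_zero]
      calc ∑ l, μ l z • σ g (w l) = ∑ l, σ g (μ l z • w l) :=
            Finset.sum_congr rfl fun l _ => by rw [map_smul]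
        _ = ∑ l, μ l (fun j => ρ g (z j)) • w l := h5.symm
        _ = ∑ l, μ l z • w l := Finset.sum_congr rfl fun l _ => by rw [mat_inv hm (hμ l)]
    have h6 : ∑ r, c r k • ∑ l, μ l (fun j => t (r j)) • (σ g (w l) - w l) = 0 :=
      Finset.sum_eq_zero fun r _ => by rw [h4, smul_zero]
    simp_rw [Finset.smul_sum] at h6
    rw [Finset.sum_comm] at h6
    have h7 : ∀ l, ∑ r, c r k • μ l (fun j => t (r j)) • (σ g (w l) - w l) =
        (if k = l then (1 : ℚ) else 0) • (σ g (w l) - w l) := by
      intro l
      rw [← hcμ k l, Finset.sum_smul]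
      exact Finset.sum_congr rfl fun r _ => by rw [smul_smul]
    simp_rw [h7] at h6
    rw [Finset.sum_eq_single k] at h6
    · rw [if_pos rfl, one_smul] at h6
      exact sub_eq_zero.1 h6
    · intro l _ hl
      rw [if_neg (Ne.symm hl), zero_smul]
    · intro hk
      exact absurd (Finset.mem_univ k) hk
  have hq : ∀ k, w k ∈ 𝒜.base q := fun k => hD (w k) (hinv k) p q (hbase k)
  have h8 : (tpart h).compLinearMap (fun _ => LinearMap.snd ℚ A T) =
      ∑ k, ((μ k).compLinearMap fun _ => LinearMap.snd ℚ A T).smulRight (w k) := by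
    ext z
    rw [_root_.sum_apply]
    change tpart h (fun j => (z j).2) = ∑ k, μ k (fun j => (z j).2) • w k
    exact h3 _
  rw [h8]
  exact Submodule.sum_mem _ fun k _ => smulRight_mem hc (hμ k) (hq k)

/-- the slot `j` is replaced by its part in `T` -/
def slot (A : Type u) [AddCommGroup A] [Module ℚ A] (T : Type v) [AddCommGroup T] [Module ℚ T]
    {n : ℕ} (s : Finset (Fin n)) (j : Fin n) : A × T →ₗ[ℚ] A × T :=
  if j ∈ s then LinearMap.inr ℚ A T ∘ₗ LinearMap.snd ℚ A T else LinearMap.id

theorem slot_flat {n : ℕ} {h : MultilinearMap ℚ (fun _ : Fin n => A × T) E} (hf : IsFlat ρ σ h)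
    (s : Finset (Fin n)) : IsFlat ρ σ (h.compLinearMap (slot A T s)) := by
  intro g x
  have h1 := hf g fun j => slot A T s j (x j)
  rw [MultilinearMap.compLinearMap_apply, MultilinearMap.compLinearMap_apply, ← h1]
  congr 1
  funext j
  unfold slot
  split_ifs <;> rfl

theorem slot_sub [Module.Finite ℚ A] {n : ℕ}
    (h : MultilinearMap ℚ (fun _ : Fin (n + 1) => A × T) E) (j : Fin (n + 1)) :
    h - h.compLinearMap (slot A T {j}) = ∑ i, LinearMap.uncurryMid j
      (((Module.finBasis ℚ A).coord i ∘ₗ LinearMap.fst ℚ A T).smulRight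
        (h.curryMid j (Module.finBasis ℚ A i, 0))) := by
  ext x
  rw [_root_.sum_apply, sub_apply, MultilinearMap.compLinearMap_apply]
  simp only [LinearMap.uncurryMid_apply, LinearMap.smulRight_apply, LinearMap.comp_apply,
    LinearMap.fst_apply, smul_apply, MultilinearMap.curryMid_apply_apply,
    Fin.insertNth_removeNth]
  have h1 : (fun i => slot A T {j} i (x i)) = update x j (0, (x j).2) := by
    funext i
    unfold slot
    by_cases hi : i = j
    · subst hi
      rw [if_pos (Finset.mem_singleton_self _), update_self]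
      rfl
    · rw [if_neg (by simpa using hi), update_of_ne hi]
      rfl
  rw [h1]
  have h2 : update x j (((0, (x j).2) : A × T) + ((x j).1, 0)) = x := by
    conv_rhs => rw [← update_eq_self j x]
    congr 1
    ext <;> simp
  have h3 : (((x j).1, 0) : A × T) = ∑ i, (Module.finBasis ℚ A).coord i (x j).1 •
      ((Module.finBasis ℚ A i, 0) : A × T) := by
    rw [Prod.ext_iff]
    constructor
    · rw [Prod.fst_sum]
      exact ((Module.finBasis ℚ A).sum_repr (x j).1).symm
    · rw [Prod.snd_sum]
      simp
  have h4 : h x = h (update x j (0, (x j).2)) + h (update x j ((x j).1, 0)) := by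
    rw [← MultilinearMap.map_update_add, h2]
  rw [h4, add_sub_cancel_left, h3, MultilinearMap.map_update_sum]
  exact Finset.sum_congr rfl fun i _ => by rw [MultilinearMap.map_update_smul]

theorem eval_flat {n : ℕ} {h : MultilinearMap ℚ (fun _ : Fin (n + 1) => A × T) E}
    (hf : IsFlat ρ σ h) (j : Fin (n + 1)) (a : A) : IsFlat ρ σ (h.curryMid j (a, 0)) := by
  intro g x
  have h1 := hf g (j.insertNth (a, 0) x)
  rw [MultilinearMap.curryMid_apply_apply, MultilinearMap.curryMid_apply_apply, ← h1]
  congr 1
  funext i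
  refine Fin.succAboveCases j ?_ (fun k => ?_) i
  · rw [Fin.insertNth_apply_same, Fin.insertNth_apply_same, map_zero]
  · rw [Fin.insertNth_apply_succAbove, Fin.insertNth_apply_succAbove]

/-- **The variational Hodge conjecture for the tensor powers.** -/
theorem variational [Module.Finite ℚ A] [Module.Finite ℚ T] (hm : RankOneMonodromy ρ σ B)
    (hc : IsClassSystem 𝒜 B) (hD : Variational (fun w : E => ∀ g, σ g w = w) 𝒜.base) (n : ℕ) :
    Variational (IsFlat ρ σ) (fun p => 𝒜.cls p n) := by
  classical
  intro h hf p q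
  induction n with
  | zero =>
    intro hp
    have h1 := tpart_mem (q := q) hm hc hD hf hp
    convert h1 using 1
    ext x
    change h x = h fun j => (0, (x j).2)
    congr 1
    funext j
    exact j.elim0
  | succ n ih =>
    intro hp
    have key : ∀ s : Finset (Fin (n + 1)), h.compLinearMap (slot A T s) ∈ 𝒜.cls p (n + 1) ∧
        h - h.compLinearMap (slot A T s) ∈ 𝒜.cls q (n + 1) := by
      intro s
      induction s using Finset.induction_on with
      | empty =>
        have h1 : h.compLinearMap (slot A T ∅) = h := by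
          ext x
          rw [MultilinearMap.compLinearMap_apply]
          congr 1
        rw [h1, sub_self]
        exact ⟨hp, Submodule.zero_mem _⟩
      | insert j s hj ihs =>
        obtain ⟨h1, h2⟩ := ihs
        have h3 : h.compLinearMap (slot A T (insert j s)) =
            (h.compLinearMap (slot A T s)).compLinearMap (slot A T {j}) := by
          ext x
          rw [MultilinearMap.compLinearMap_apply, MultilinearMap.compLinearMap_apply,
            MultilinearMap.compLinearMap_apply]
          congr 1
          funext i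
          unfold slot
          by_cases hi : i = j
          · subst hi
            rw [if_pos (Finset.mem_insert_self _ _), if_neg hj,
              if_pos (Finset.mem_singleton_self _)]
            rfl
          · rw [if_neg (show i ∉ ({j} : Finset (Fin (n + 1))) by simpa using hi)]
            by_cases his : i ∈ s
            · rw [if_pos (Finset.mem_insert_of_mem his), if_pos his]
              rfl
            · rw [if_neg (by simp [hi, his]), if_neg his]
              rfl
        have h4 := slot_sub (h.compLinearMap (slot A T s)) j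
        have h5 : IsFlat ρ σ (h.compLinearMap (slot A T s)) := slot_flat hf s
        have h6 : (h.compLinearMap (slot A T s)) -
            (h.compLinearMap (slot A T s)).compLinearMap (slot A T {j}) ∈ 𝒜.cls p (n + 1) := by
          rw [h4]
          exact Submodule.sum_mem _ fun i _ => hc.insert_mem _ _ _ _ (hc.eval_mem _ _ _ _ h1 _) _
        have h7 : (h.compLinearMap (slot A T s)) -
            (h.compLinearMap (slot A T s)).compLinearMap (slot A T {j}) ∈ 𝒜.cls q (n + 1) := by
          rw [h4]
          exact Submodule.sum_mem _ fun i _ => hc.insert_mem _ _ _ _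
            (ih _ (eval_flat h5 _ _) (hc.eval_mem _ _ _ _ h1 _)) _
        rw [h3]
        constructor
        · have := Submodule.sub_mem _ h1 h6
          rwa [sub_sub_cancel] at this
        · have := Submodule.add_mem _ h2 h7
          rwa [sub_add_sub_cancel] at this
    obtain ⟨-, h2⟩ := key univ
    have h3 := tpart_mem (q := q) hm hc hD hf hp
    have h4 : h.compLinearMap (slot A T univ) =
        (tpart h).compLinearMap (fun _ => LinearMap.snd ℚ A T) := by
      ext x
      rw [MultilinearMap.compLinearMap_apply]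
      change _ = h fun j => (0, (x j).2)
      congr 1
      funext j
      unfold slot
      rw [if_pos (Finset.mem_univ j)]
      rfl
    rw [h4] at h2
    have := Submodule.add_mem _ h2 h3
    rwa [sub_add_cancel] at this

/-- The case of no factor. -/
theorem variational_base [Module.Finite ℚ T] (hm : RankOneMonodromy ρ σ B)
    (hc : IsClassSystem 𝒜 B) (h0 : Variational (IsFlat ρ σ) (fun p => 𝒜.cls p 0)) :
    Variational (fun w : E => ∀ g, σ g w = w) 𝒜.base := by
  classical
  intro w hw p q hp
  let e : Fin 0 × Fin 2 ≃ Fin 0 := Equiv.equivOfIsEmpty _ _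
  have h1 : (pairs A B e).smulRight w ∈ 𝒜.cls p 0 := hc.pairs_mem p 0 0 e w hp
  have h2 : ∀ x, (pairs A B e).smulRight w x = w := by
    intro x
    rw [MultilinearMap.smulRight_apply]
    change (matchForm B e fun j => (x j).2) • w = w
    rw [matchForm_apply, Finset.univ_eq_empty, Finset.prod_empty, one_smul]
  have h3 := h0 _ (fun g x => by rw [h2, h2, hw]) p q h1
  obtain ⟨J, iJ, dJ, t, t', -, -, -, hdual, -⟩ :=
    exists_dual (E := E) (sign_or hm) hm.nondeg (Fin 0)
  have h4 := hc.contract_mem q 0 0 e _ h3 J t t' hdual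
  unfold contraction at h4
  simp_rw [h2] at h4
  simpa using h4

/-- **The main theorem.** -/
theorem main [Module.Finite ℚ A] [Module.Finite ℚ T] (hm : RankOneMonodromy ρ σ B)
    (hc : IsClassSystem 𝒜 B) :
    (VHCBase σ 𝒜 ↔ ∀ n, VHCPower ρ σ 𝒜 n) ∧ (VHCBase σ 𝒜 → ∀ n, VHCSummands ρ σ 𝒜 n) := by
  refine ⟨⟨fun hD n => variational hm hc hD n, fun h => variational_base hm hc (h 0)⟩,
    fun hD n π hπ hcls φ hf p q hp => ?_⟩
  obtain ⟨φ', h1, h2⟩ := Submodule.mem_map.1 hp
  have h3 : π φ = φ := by rw [← h2, hπ]
  have h4 : φ ∈ 𝒜.cls p n := by rw [← h2]; exact hcls p _ h1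
  exact Submodule.mem_map.2 ⟨φ, variational hm hc hD n φ hf p q h4, h3⟩

end Pool.Agent.V8H91.NV
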