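import Pool.Agent.V8H91.NV.Fft

/-!
# The perfect pairing on the products of a form
-/

open Finset Function

namespace Pool.Agent.V8H91.NV

variable {T : Type*} [AddCommGroup T] [Module ℚ T] {E : Type*} [AddCommGroup E] [Module ℚ E]

/-- The vectors `t (y l)` and `t' (y l)` are put into the variables `e (l, 0)` and `e (l, 1)`. -/
def plug {X J : Type*} {S : Type} {m : ℕ} (e : Fin m × Fin 2 ≃ S) (t t' : J → X) (y : Fin m → J) :
    S → X :=
  fun j => if (e.symm j).2 = 0 then t (y (e.symm j).1) else t' (y (e.symm j).1)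

variable {B : T →ₗ[ℚ] T →ₗ[ℚ] ℚ}

/-- the weight of a multi-index -/
def wt {J : Type} (w : J → ℚ) {S : Type} [Fintype S] (r : S → J) : ℚ := ∏ j, w (r j)

theorem contract_eq {J : Type} [Fintype J] [DecidableEq J] {t : Module.Basis J ℚ T} {w : J → ℚ}
    {S : Type} [Fintype S] [DecidableEq S] {m : ℕ} (e : Fin m × Fin 2 ≃ S)
    (f : MultilinearMap ℚ (fun _ : S => T) E) :
    ∑ y : Fin m → J, f (plug e t (fun j => ∑ k, (w j * w k * B (t j) (t k)) • t k) y) =
      ∑ r : S → J, (wt w r * matchForm B e fun j => t (r j)) • f fun j => t (r j) := by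
  classical
  have h1 : ∀ y : Fin m → J,
      f (plug e t (fun j => ∑ k, (w j * w k * B (t j) (t k)) • t k) y) =
        ∑ r : S → J, (∏ j, if (e.symm j).2 = 0 then (if y (e.symm j).1 = r j then (1 : ℚ) else 0)
          else w (y (e.symm j).1) * w (r j) * B (t (y (e.symm j).1)) (t (r j))) •
            f fun j => t (r j) := by
    intro y
    have h2 : plug e t (fun j => ∑ k, (w j * w k * B (t j) (t k)) • t k) y = fun j =>
        ∑ k, (if (e.symm j).2 = 0 then (if y (e.symm j).1 = k then (1 : ℚ) else 0)
          else w (y (e.symm j).1) * w k * B (t (y (e.symm j).1)) (t k)) • t k := by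
      funext j
      unfold plug
      split_ifs with h
      · simp
      · rfl
    rw [h2, MultilinearMap.map_sum]
    refine Finset.sum_congr rfl fun r _ => ?_
    exact MultilinearMap.map_smul_univ f _ _
  simp_rw [h1]
  rw [Finset.sum_comm]
  refine Finset.sum_congr rfl fun r _ => ?_
  rw [← Finset.sum_smul]
  congr 1
  have h3 : ∀ y : Fin m → J, (∏ j, if (e.symm j).2 = 0 then
      (if y (e.symm j).1 = r j then (1 : ℚ) else 0)
        else w (y (e.symm j).1) * w (r j) * B (t (y (e.symm j).1)) (t (r j))) =
      ∏ l, ((if y l = r (e (l, 0)) then (1 : ℚ) else 0) *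
        (w (y l) * w (r (e (l, 1))) * B (t (y l)) (t (r (e (l, 1)))))) := by
    intro y
    rw [← e.prod_comp, Fintype.prod_prod_type]
    refine Finset.prod_congr rfl fun l _ => ?_
    rw [Fin.prod_univ_two]
    simp only [Equiv.symm_apply_apply, if_pos]
    simp
  simp_rw [h3]
  rw [matchForm_apply]
  have h4 := (Finset.prod_univ_sum (fun _ : Fin m => (univ : Finset J))
    (fun l y => ((if y = r (e (l, 0)) then (1 : ℚ) else 0) *
        (w y * w (r (e (l, 1))) * B (t y) (t (r (e (l, 1)))))))).symm
  rw [Fintype.piFinset_univ] at h4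
  rw [h4]
  have h5 : wt w r = ∏ l, (w (r (e (l, 0))) * w (r (e (l, 1)))) := by
    unfold wt
    rw [← e.prod_comp, Fintype.prod_prod_type]
    refine Finset.prod_congr rfl fun l _ => ?_
    rw [Fin.prod_univ_two]
  rw [h5, ← Finset.prod_mul_distrib]
  refine Finset.prod_congr rfl fun l _ => ?_
  simp

variable [Module.Finite ℚ T]

/-- The products of the form. -/
def Mat (B : T →ₗ[ℚ] T →ₗ[ℚ] ℚ) (S : Type) : Submodule ℚ (MultilinearMap ℚ (fun _ : S => T) ℚ) :=
  Submodule.span ℚ {h | ∃ (m : ℕ) (e : Fin m × Fin 2 ≃ S), h = matchForm B e}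

/-- **The perfect pairing.** -/
theorem exists_dual (hs : (∀ x y, B x y = B y x) ∨ ∀ x y, B x y = -B y x)
    (hnd : ∀ x, (∀ y, B x y = 0) → x = 0) (S : Type) [Fintype S] [DecidableEq S] :
    ∃ (J : Type) (_ : Fintype J) (_ : DecidableEq J) (t : Module.Basis J ℚ T) (t' : J → T)
      (d : ℕ) (μ : Fin d → MultilinearMap ℚ (fun _ : S => T) ℚ) (c : (S → J) → Fin d → ℚ),
      (∀ i j, B (t i) (t' j) = if i = j then 1 else 0) ∧ (∀ k, μ k ∈ Mat B S) ∧
      (∀ k l, ∑ r, c r k * μ l (fun j => t (r j)) = if k = l then 1 else 0) ∧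
      (∀ f ∈ MSpan B E S, f = ∑ k, (μ k).smulRight (∑ r, c r k • f fun j => t (r j))) ∧
      ∀ f : MultilinearMap ℚ (fun _ : S => T) E, ∀ W : Submodule ℚ E,
        (∀ (m : ℕ) (e : Fin m × Fin 2 ≃ S), ∑ y : Fin m → J, f (plug e t t' y) ∈ W) →
        ∀ k, ∑ r, c r k • f (fun j => t (r j)) ∈ W := by
  classical
  obtain ⟨J, iJ, dJ, t, w, hw, hgood⟩ : ∃ (J : Type) (_ : Fintype J) (_ : DecidableEq J)
      (t : Module.Basis J ℚ T) (w : J → ℚ), IsGood B t w := by
    rcases hs with hs | hs
    · exact exists_good_symm B hs hnd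
    · exact exists_good_alt B hs hnd
  let t' : J → T := fun j => ∑ k, (w j * w k * B (t j) (t k)) • t k
  have hpos : ∀ r : S → J, 0 < wt w r := fun r => Finset.prod_pos fun j _ => hw (r j)
  let β : LinearMap.BilinForm ℚ (Mat B S) := LinearMap.mk₂ ℚ
    (fun μ ν => ∑ r : S → J, wt w r * (μ.1 fun j => t (r j)) * (ν.1 fun j => t (r j)))
    (by
      intro a b c
      rw [← Finset.sum_add_distrib]
      exact Finset.sum_congr rfl fun r _ => by
        rw [Submodule.coe_add, add_apply]; ring)
    (by
      intro q a b
      rw [smul_eq_mul, Finset.mul_sum]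
      exact Finset.sum_congr rfl fun r _ => by
        rw [Submodule.coe_smul, smul_apply, smul_eq_mul]; ring)
    (by
      intro a b c
      rw [← Finset.sum_add_distrib]
      exact Finset.sum_congr rfl fun r _ => by
        rw [Submodule.coe_add, add_apply]; ring)
    (by
      intro q a b
      rw [smul_eq_mul, Finset.mul_sum]
      exact Finset.sum_congr rfl fun r _ => by
        rw [Submodule.coe_smul, smul_apply, smul_eq_mul]; ring)
  have hβ : ∀ μ ν, β μ ν =
      ∑ r : S → J, wt w r * (μ.1 fun j => t (r j)) * (ν.1 fun j => t (r j)) := fun _ _ => rfl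
  have hβ0 : ∀ μ, β μ μ = 0 → μ = 0 := by
    intro μ h
    rw [hβ] at h
    have h1 := (Finset.sum_eq_zero_iff_of_nonneg (fun r _ => by
      rw [mul_assoc]
      exact mul_nonneg (hpos r).le (mul_self_nonneg _))).1 h
    apply Subtype.ext
    refine Module.Basis.ext_multilinear (fun _ => t) fun r => ?_
    have h2 := h1 r (Finset.mem_univ r)
    rw [mul_assoc] at h2
    have h3 := (mul_eq_zero.1 h2).resolve_left (hpos r).ne'
    exact mul_self_eq_zero.1 h3
  have hβnd : β.Nondegenerate := by
    refine ⟨fun μ h => hβ0 μ (h μ), fun μ h => hβ0 μ (h μ)⟩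
  let b := Module.finBasis ℚ (Mat B S)
  let ν := LinearMap.BilinForm.dualBasis β hβnd b
  have hν : ∀ k l, β (ν k) (b l) = if l = k then 1 else 0 := fun k l =>
    LinearMap.BilinForm.apply_dualBasis_left hβnd b k l
  have hrepr : ∀ x : Mat B S, x = ∑ k, β (ν k) x • b k := by
    intro x
    conv_lhs => rw [← b.sum_repr x]
    refine Finset.sum_congr rfl fun k _ => ?_
    congr 1
    conv_rhs => rw [← b.sum_repr x]
    rw [map_sum, Finset.sum_eq_single k]
    · rw [map_smul, hν, if_pos rfl, smul_eq_mul, mul_one]
    · intro l _ hl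
      rw [map_smul, hν, if_neg hl, smul_zero]
    · intro h
      exact absurd (Finset.mem_univ k) h
  refine ⟨J, iJ, dJ, t, t', Module.finrank ℚ (Mat B S), fun k => (b k).1,
    fun r k => wt w r * (ν k).1 fun j => t (r j), ?_, fun k => (b k).2, ?_, ?_, ?_⟩
  · intro i j
    rw [map_sum, ← hgood i j]
    refine Finset.sum_congr rfl fun k _ => ?_
    rw [map_smul, smul_eq_mul]
  · intro k l
    have h := hν k l
    rw [hβ] at h
    rw [h]
    simp only [eq_comm]
  · intro f hf
    unfold MSpan at hf
    induction hf using Submodule.span_induction with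
    | mem f hf =>
      obtain ⟨m, e, v, rfl⟩ := hf
      let x : Mat B S := ⟨matchForm B e, Submodule.subset_span ⟨m, e, rfl⟩⟩
      have h1 : ∀ k, ∑ r : S → J, (wt w r * (ν k).1 fun j => t (r j)) •
          ((matchForm B e).smulRight v) (fun j => t (r j)) = β (ν k) x • v := by
        intro k
        rw [hβ, Finset.sum_smul]
        refine Finset.sum_congr rfl fun r _ => ?_
        rw [MultilinearMap.smulRight_apply, smul_smul]
      ext z
      rw [MultilinearMap.smulRight_apply, _root_.sum_apply]
      have h2 : matchForm B e z = ∑ k, β (ν k) x * (b k).1 z := by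
        have h3 := congrArg (fun y : Mat B S => y.1 z) (hrepr x)
        simp only [Submodule.coe_sum, Submodule.coe_smul, _root_.sum_apply, smul_apply,
          smul_eq_mul] at h3
        exact h3
      rw [h2, Finset.sum_smul]
      refine Finset.sum_congr rfl fun k _ => ?_
      rw [MultilinearMap.smulRight_apply, h1, smul_smul, mul_comm]
    | zero =>
      ext z
      simp
    | add x y _ _ hx hy =>
      ext z
      have hx' := congrArg (fun f => f z) hx
      have hy' := congrArg (fun f => f z) hy
      simp only [_root_.sum_apply, MultilinearMap.smulRight_apply] at hx' hy' ⊢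
      rw [add_apply, hx', hy', ← Finset.sum_add_distrib]
      refine Finset.sum_congr rfl fun k _ => ?_
      rw [← smul_add, ← Finset.sum_add_distrib]
      congr 1
      exact Finset.sum_congr rfl fun r _ => by rw [← smul_add, add_apply]
    | smul q x _ hx =>
      ext z
      have hx' := congrArg (fun f => f z) hx
      simp only [_root_.sum_apply, MultilinearMap.smulRight_apply] at hx' ⊢
      rw [smul_apply, hx', Finset.smul_sum]
      refine Finset.sum_congr rfl fun k _ => ?_
      rw [smul_comm, Finset.smul_sum]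
      congr 1
      exact Finset.sum_congr rfl fun r _ => by rw [smul_comm, smul_apply]
  · intro f W hW k
    have key : ∀ ν' ∈ Mat B S,
        ∑ r : S → J, (wt w r * ν' fun j => t (r j)) • f (fun j => t (r j)) ∈ W := by
      intro ν' hν'
      unfold Mat at hν'
      induction hν' using Submodule.span_induction with
      | mem x hx =>
        obtain ⟨m, e, rfl⟩ := hx
        rw [← contract_eq e f]
        exact hW m e
      | zero => simp
      | add x y _ _ hx hy =>
        have h := W.add_mem hx hy
        rw [← Finset.sum_add_distrib] at h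
        convert h using 1
        exact Finset.sum_congr rfl fun r _ => by
          rw [← add_smul, add_apply, mul_add]
      | smul q x _ hx =>
        have h := W.smul_mem q hx
        rw [Finset.smul_sum] at h
        convert h using 1
        exact Finset.sum_congr rfl fun r _ => by
          rw [smul_smul, smul_apply, smul_eq_mul]
          congr 1
          ring
    exact key _ (ν k).2

end Pool.Agent.V8H91.NV
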